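import Mathlib
import Pool.Agent.P.MP_6e91db_co.Main

namespace Pool.Agent.Results.MP_6e91db_co.LogConcave

/-- The order polytope of a poset. -/
def orderPolytope (Q : Type) [PartialOrder Q] : Set (Q → ℝ) :=
  {x | (∀ a, 0 ≤ x a ∧ x a ≤ 1) ∧ ∀ a b, a ≤ b → x a ≤ x b}

/-- The face lattice of the `n`-gon with vertices `ZMod n`: each face is recorded by its vertex
set (empty face, vertices, edges, whole polygon), ordered by inclusion. -/
abbrev FaceLattice (n : ℕ) : Type :=
  {s : Set (ZMod n) // s = ∅ ∨ (∃ i, s = {i}) ∨ (∃ i, s = {i, i + 1}) ∨ s = Set.univ}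

open Classical in
/-- Affine dimension of a set of points, with the value `-1` for the empty set. -/
noncomputable def affDim {Q : Type} (F : Set (Q → ℝ)) : ℤ :=
  if F = ∅ then -1 else (Module.finrank ℝ (vectorSpan ℝ F) : ℤ)

/-- The number of `i`-dimensional faces (exposed faces, including the empty face and `K`). -/
noncomputable def faceNum {Q : Type} (K : Set (Q → ℝ)) (i : ℤ) : ℕ :=
  {F : Set (Q → ℝ) | IsExposed ℝ K F ∧ affDim F = i}.ncard

open Pool.Agent.P.MP_6e91db_co

lemma crown (k : ℕ) (hk : 1 ≤ k) : ∃ (bt tp : FaceLattice (k + 2))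
    (z : Pos (k + 1) → FaceLattice (k + 2)), IsCrown bt tp z := by
  let c : Fin (k + 1 + 1) → ZMod (k + 2) := fun i => i
  have cinj : ∀ i j, c i = c j ↔ i = j := fun i j => Iff.rfl
  have csub : ∀ i, c (i - 1) = c i - 1 := fun i => rfl
  have h1 : (1 : ZMod (k + 2)) ≠ 0 := by
    intro h
    have := (ZMod.natCast_eq_zero_iff 1 (k + 2)).1 (by exact_mod_cast h)
    have := Nat.le_of_dvd (by norm_num) this
    omega
  have h2 : (2 : ZMod (k + 2)) ≠ 0 := by
    intro h
    have := (ZMod.natCast_eq_zero_iff 2 (k + 2)).1 (by exact_mod_cast h)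
    have := Nat.le_of_dvd (by norm_num) this
    omega
  let z : Pos (k + 1) → FaceLattice (k + 2) := fun j =>
    if j.2 = true then ⟨{c j.1, c j.1 + 1}, Or.inr (Or.inr (Or.inl ⟨_, rfl⟩))⟩
    else ⟨{c j.1}, Or.inr (Or.inl ⟨_, rfl⟩)⟩
  have zt : ∀ i, (z (i, true)).1 = {c i, c i + 1} := fun i => rfl
  have zf : ∀ i, (z (i, false)).1 = {c i} := fun i => rfl
  have hle : ∀ j l, z j ≤ z l ↔
      j = l ∨ (l.2 = true ∧ j = prev (k + 1) l) ∨ (j.2 = false ∧ l = prev (k + 1) j) := by
    rintro ⟨i, _ | _⟩ ⟨l, _ | _⟩ <;>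
      rw [← Subtype.coe_le_coe] <;>
      simp only [zt, zf, Set.singleton_subset_iff, Set.mem_singleton_iff, Set.insert_subset_iff,
        Set.mem_insert_iff, prev_true, prev_false, Prod.mk.injEq, ← cinj, csub,
        Bool.false_eq_true, Bool.true_eq_false, and_true, and_false, false_and, or_false,
        false_or, true_and, iff_false]
    · exact or_congr Iff.rfl ⟨fun h => by rw [h]; ring, fun h => by rw [h]; ring⟩
    · rintro ⟨a, b⟩
      exact h1 (by linear_combination b - a)
    · constructor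
      · rintro ⟨a | a, b | b⟩
        · exact a
        · exact a
        · exact absurd (by linear_combination b - a) h2
        · linear_combination b
      · intro h
        exact ⟨Or.inl h, Or.inr (by rw [h])⟩
  refine ⟨⟨∅, Or.inl rfl⟩, ⟨Set.univ, Or.inr (Or.inr (Or.inr rfl))⟩, z, ?_, ?_, ?_, ?_, ?_, ?_,
    ?_, hle⟩
  · rintro ⟨s, rfl | ⟨a, rfl⟩ | ⟨a, rfl⟩ | rfl⟩
    · exact Or.inl rfl
    · exact Or.inr (Or.inr ⟨(a, false), rfl⟩)
    · exact Or.inr (Or.inr ⟨(a, true), rfl⟩)
    · exact Or.inr (Or.inl rfl)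
  · intro j l h
    have a := (hle j l).1 h.le
    have b := (hle l j).1 h.ge
    rcases j with ⟨i, _ | _⟩ <;> rcases l with ⟨l, _ | _⟩ <;> simp_all
  · rintro ⟨i, _ | _⟩ h
    · have := congrArg Subtype.val h
      rw [zf] at this
      exact Set.singleton_ne_empty _ this
    · have := congrArg Subtype.val h
      rw [zt] at this
      exact Set.insert_nonempty _ _ |>.ne_empty this
  · rintro ⟨i, _ | _⟩ h
    · have a : c i + 1 ∈ (z (i, false)).1 := by rw [h]; trivial
      rw [zf, Set.mem_singleton_iff] at a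
      exact h1 (by linear_combination a)
    · have a : c i + 2 ∈ (z (i, true)).1 := by rw [h]; trivial
      rw [zt, Set.mem_insert_iff, Set.mem_singleton_iff] at a
      rcases a with a | a
      · exact h2 (by linear_combination a)
      · exact h1 (by linear_combination a)
  · intro h
    exact Set.empty_ne_univ (congrArg Subtype.val h)
  · intro p
    exact Set.empty_subset p.1
  · intro p
    exact Set.subset_univ p.1

lemma faceNum_eq (k : ℕ) (hk : 1 ≤ k) (j : ℕ) :
    (faceNum (orderPolytope (FaceLattice (k + 2))) ((j : ℤ) - 1) : ℝ) = (fpoly k).coeff j := by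
  obtain ⟨bt, tp, z, H⟩ := crown k hk
  cases j with
  | zero =>
    rw [fpoly_coeff_zero, faceNum]
    have : {F : Set (FaceLattice (k + 2) → ℝ) | IsExposed ℝ (orderPolytope (FaceLattice (k + 2))) F
        ∧ affDim F = ((0 : ℕ) : ℤ) - 1} = {∅} := by
      ext F
      simp only [Set.mem_ofPred_eq, Set.mem_singleton_iff, affDim]
      constructor
      · rintro ⟨-, h⟩
        by_contra hF
        rw [if_neg hF] at h
        omega
      · rintro rfl
        exact ⟨isExposed_empty, by simp⟩
    rw [this]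
    simp
  | succ j =>
    rw [← face_count H (orderPolytope (FaceLattice (k + 2))) rfl j, faceNum]
    congr 2
    ext F
    simp only [Set.mem_ofPred_eq, affDim]
    refine and_congr Iff.rfl ?_
    by_cases hF : F = ∅
    · rw [if_pos hF]
      constructor
      · intro h; omega
      · rintro ⟨h, -⟩; exact absurd hF h.ne_empty
    · rw [if_neg hF]
      constructor
      · intro h; exact ⟨Set.nonempty_iff_ne_empty.2 hF, by omega⟩
      · rintro ⟨-, h⟩; omega

/-- For every `n ≥ 3` the f-vector `(f_{-1}, ..., f_{2n+2})` of the order polytope of the face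
lattice of the `n`-gon is a log-concave sequence of positive numbers. -/
theorem result (n : ℕ) (hn : 3 ≤ n) :
    (∀ i : ℤ, -1 ≤ i → i ≤ 2 * n + 2 → 0 < faceNum (orderPolytope (FaceLattice n)) i) ∧
    ∀ i : ℤ, -1 < i → i < 2 * n + 2 →
      faceNum (orderPolytope (FaceLattice n)) (i - 1) *
        faceNum (orderPolytope (FaceLattice n)) (i + 1) ≤
      faceNum (orderPolytope (FaceLattice n)) i ^ 2 := by
  obtain ⟨k, rfl⟩ : ∃ k, n = k + 2 := ⟨n - 2, by omega⟩
  have hk : 1 ≤ k := by omega
  obtain ⟨⟨-, h1⟩, h2⟩ := fpoly_lc k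
  constructor
  · intro i hi hi'
    obtain ⟨j, rfl⟩ : ∃ j : ℕ, i = (j : ℤ) - 1 := ⟨(i + 1).toNat, by omega⟩
    have := h2 j (by push_cast at hi'; omega)
    rw [← faceNum_eq k hk] at this
    exact_mod_cast this
  · intro i hi _
    obtain ⟨j, rfl⟩ : ∃ j : ℕ, i = (j : ℤ) := ⟨i.toNat, by omega⟩
    have := h1 j j le_rfl
    rw [← faceNum_eq k hk, ← faceNum_eq k hk, ← faceNum_eq k hk] at this
    have e1 : (((j + 2 : ℕ) : ℤ) - 1) = (j : ℤ) + 1 := by push_cast; ring
    have e2 : (((j + 1 : ℕ) : ℤ) - 1) = (j : ℤ) := by push_cast; ring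
    rw [e1, e2, ← sq] at this
    exact_mod_cast this

end Pool.Agent.Results.MP_6e91db_co.LogConcave
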